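import Mathlib

namespace Pool.Agent.Results.MP_f10258_co.Compact

open Metric

/-- `X` and `Y` are strictly separated by the sphere with centre `c` and radius `r`: neither
meets the sphere, one lies in the open ball and the other outside the closed ball. -/
def StrictSep {d : ℕ} (X Y : Set (EuclideanSpace ℝ (Fin d))) (c : EuclideanSpace ℝ (Fin d))
    (r : ℝ) : Prop :=
  Disjoint X (sphere c r) ∧ Disjoint Y (sphere c r) ∧
    ((X ⊆ ball c r ∧ Y ⊆ (closedBall c r)ᶜ) ∨ (Y ⊆ ball c r ∧ X ⊆ (closedBall c r)ᶜ))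

/-- The ordered pair `(X, Y)` is small-sphere separable. -/
def SmallSep {d : ℕ} (X Y : Set (EuclideanSpace ℝ (Fin d))) : Prop :=
  ∃ (c : EuclideanSpace ℝ (Fin d)) (r : ℝ), 0 < r ∧ r ≤ 1 ∧ StrictSep X Y c r ∧ X ⊆ ball c r

lemma smallSep_of {d : ℕ} {X Y : Set (EuclideanSpace ℝ (Fin d))}
    (c : EuclideanSpace ℝ (Fin d)) (r : ℝ) (h0 : 0 < r) (h1 : r ≤ 1) (hX : X ⊆ ball c r)
    (hY : Y ⊆ (closedBall c r)ᶜ) : SmallSep X Y := by
  refine ⟨c, r, h0, h1, ⟨?_, ?_, Or.inl ⟨hX, hY⟩⟩, hX⟩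
  · rw [Set.disjoint_left]
    intro x hx hs
    have := hX hx
    rw [mem_ball] at this
    rw [mem_sphere] at hs
    linarith
  · rw [Set.disjoint_left]
    intro x hx hs
    exact hY hx (sphere_subset_closedBall hs)

lemma far {d : ℕ} (hd : 1 ≤ d) {Y : Set (EuclideanSpace ℝ (Fin d))}
    (hY : Bornology.IsBounded Y) : ∃ c : EuclideanSpace ℝ (Fin d), Y ⊆ (closedBall c 1)ᶜ := by
  obtain ⟨R, hR⟩ := hY.subset_closedBall 0
  refine ⟨EuclideanSpace.single ⟨0, hd⟩ (|R| + 2), ?_⟩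
  intro y hy hb
  have h1 := hR hy
  rw [mem_closedBall, dist_zero_right] at h1
  rw [mem_closedBall] at hb
  have h2 : ‖(EuclideanSpace.single (⟨0, hd⟩ : Fin d) (|R| + 2) : EuclideanSpace ℝ (Fin d))‖
      = |R| + 2 := by
    rw [EuclideanSpace.norm_single, Real.norm_eq_abs, abs_of_nonneg (by positivity)]
  have h3 := dist_triangle_left (EuclideanSpace.single (⟨0, hd⟩ : Fin d) (|R| + 2) :
    EuclideanSpace ℝ (Fin d)) 0 y
  rw [dist_zero_right, dist_zero_right, h2] at h3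
  have := le_abs_self R
  linarith

lemma simple {d : ℕ} (hd : 1 ≤ d) {X Y : Set (EuclideanSpace ℝ (Fin d))}
    (hY : Bornology.IsBounded Y) (h : SmallSep X Y) :
    ∃ (c : EuclideanSpace ℝ (Fin d)) (r : ℝ), 0 < r ∧ r ≤ 1 ∧ X ⊆ ball c r ∧
      Y ⊆ (closedBall c r)ᶜ := by
  obtain ⟨c, r, h0, h1, ⟨-, -, h | h⟩, hX⟩ := h
  · exact ⟨c, r, h0, h1, h.1, h.2⟩
  · obtain ⟨c', hc'⟩ := far hd hY
    refine ⟨c', 1, one_pos, le_rfl, ?_, hc'⟩
    intro x hx
    exact absurd (ball_subset_closedBall (hX hx)) (h.2 hx)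

/-- The lifted affine function. -/
noncomputable def lift {d : ℕ} (p : EuclideanSpace ℝ (Fin d))
    (z : EuclideanSpace ℝ (Fin d) × ℝ) : ℝ :=
  ‖p‖ ^ 2 - 2 * inner ℝ p z.1 + z.2

lemma lift_eq {d : ℕ} (p : EuclideanSpace ℝ (Fin d)) (z : EuclideanSpace ℝ (Fin d) × ℝ) :
    lift p z = dist p z.1 ^ 2 - (‖z.1‖ ^ 2 - z.2) := by
  rw [lift, dist_eq_norm, norm_sub_sq_real]; ring

noncomputable def sg {d : ℕ} (A B : Set (EuclideanSpace ℝ (Fin d))) (x : A ⊕ B)
    (z : EuclideanSpace ℝ (Fin d) × ℝ) : ℝ :=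
  Sum.elim (fun a : A => -lift a.1 z) (fun b : B => lift b.1 z) x

lemma sg_cont1 {d : ℕ} (A B : Set (EuclideanSpace ℝ (Fin d)))
    (z : EuclideanSpace ℝ (Fin d) × ℝ) : Continuous fun x => sg A B x z := by
  unfold sg
  apply Continuous.sumElim <;> unfold lift <;> fun_prop

lemma sg_cont2 {d : ℕ} (A B : Set (EuclideanSpace ℝ (Fin d))) (x : A ⊕ B) :
    Continuous fun z => sg A B x z := by
  rcases x with a | b <;> simp only [sg, Sum.elim_inl, Sum.elim_inr] <;> unfold lift <;> fun_prop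

lemma lift_comb {d : ℕ} (p : EuclideanSpace ℝ (Fin d)) (z w : EuclideanSpace ℝ (Fin d) × ℝ)
    (s t : ℝ) (h : s + t = 1) : lift p (s • z + t • w) = s * lift p z + t * lift p w := by
  simp only [lift, Prod.fst_add, Prod.snd_add, Prod.smul_fst, Prod.smul_snd, inner_add_right,
    inner_smul_right, smul_eq_mul]
  have : t = 1 - s := by linarith
  subst this
  ring

lemma sg_comb {d : ℕ} (A B : Set (EuclideanSpace ℝ (Fin d))) (x : A ⊕ B)
    (z w : EuclideanSpace ℝ (Fin d) × ℝ)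
    (s t : ℝ) (h : s + t = 1) : sg A B x (s • z + t • w) = s * sg A B x z + t * sg A B x w := by
  rcases x with a | b <;> simp only [sg, Sum.elim_inl, Sum.elim_inr] <;> rw [lift_comb _ _ _ _ _ h]
  ring

lemma para_convex {d : ℕ} :
    Convex ℝ {z : EuclideanSpace ℝ (Fin d) × ℝ | ‖z.1‖ ^ 2 - z.2 ≤ 1} := by
  intro z hz w hw s t hs ht hst
  simp only [Set.mem_ofPred_eq, Prod.fst_add, Prod.snd_add, Prod.smul_fst, Prod.smul_snd,
    smul_eq_mul] at hz hw ⊢
  have h1 : ‖s • z.1 + t • w.1‖ ≤ s * ‖z.1‖ + t * ‖w.1‖ := by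
    refine (norm_add_le _ _).trans ?_
    rw [norm_smul, norm_smul, Real.norm_eq_abs, Real.norm_eq_abs, abs_of_nonneg hs,
      abs_of_nonneg ht]
  have h2 : ‖s • z.1 + t • w.1‖ ^ 2 ≤ (s * ‖z.1‖ + t * ‖w.1‖) ^ 2 :=
    pow_le_pow_left₀ (norm_nonneg _) h1 2
  have h3 : (s * ‖z.1‖ + t * ‖w.1‖) ^ 2 ≤ s * ‖z.1‖ ^ 2 + t * ‖w.1‖ ^ 2 := by
    have : t = 1 - s := by linarith
    subst this
    nlinarith [mul_nonneg (mul_nonneg hs ht) (sq_nonneg (‖z.1‖ - ‖w.1‖))]
  have h4 := mul_le_mul_of_nonneg_left hz hs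
  have h5 := mul_le_mul_of_nonneg_left hw ht
  nlinarith

theorem result (d : ℕ) (hd : 1 ≤ d) (A B : Set (EuclideanSpace ℝ (Fin d)))
    (hA : IsCompact A) (hB : IsCompact B) :
    SmallSep A B ↔
      ∀ T : Finset (EuclideanSpace ℝ (Fin d)), (T : Set (EuclideanSpace ℝ (Fin d))) ⊆ A ∪ B →
        T.card ≤ d + 2 → SmallSep ((T : Set (EuclideanSpace ℝ (Fin d))) ∩ A) (T ∩ B) := by
  classical
  constructor
  · intro h T _ _
    obtain ⟨c, r, h0, h1, hX, hY⟩ := simple hd hB.isBounded h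
    exact smallSep_of c r h0 h1 (fun x hx => hX hx.2) (fun x hx => hY hx.2)
  intro h
  rcases A.eq_empty_or_nonempty with rfl | ⟨a0, ha0⟩
  · obtain ⟨c, hc⟩ := far hd hB.isBounded
    exact smallSep_of c 1 one_pos le_rfl (Set.empty_subset _) hc
  have : CompactSpace A := isCompact_iff_compactSpace.mp hA
  have : CompactSpace B := isCompact_iff_compactSpace.mp hB
  -- open cover of the tuples
  let U : ℕ → Set (Fin (d + 2) → A ⊕ B) := fun n =>
    {t | ∃ z : EuclideanSpace ℝ (Fin d) × ℝ, ‖z.1‖ ^ 2 - z.2 ≤ 1 ∧ ‖z‖ ≤ n ∧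
      ∀ i, 1 / ((n : ℝ) + 1) < sg A B (t i) z}
  have hUo : ∀ n, IsOpen (U n) := by
    intro n
    have : U n = ⋃ z ∈ {z : EuclideanSpace ℝ (Fin d) × ℝ | ‖z.1‖ ^ 2 - z.2 ≤ 1 ∧ ‖z‖ ≤ n},
        ⋂ i, {t : Fin (d + 2) → A ⊕ B | 1 / ((n : ℝ) + 1) < sg A B (t i) z} := by
      ext t
      simp only [U, Set.mem_ofPred_eq, Set.mem_iUnion, Set.mem_iInter, exists_prop, and_assoc]
    rw [this]
    refine isOpen_biUnion fun z _ => isOpen_iInter_of_finite fun i => ?_
    exact isOpen_lt continuous_const ((sg_cont1 A B z).comp (continuous_apply i))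
  have hUm : Monotone U := by
    intro m n hmn t ⟨z, h1, h2, h3⟩
    have hmn' : (m : ℝ) ≤ n := by exact_mod_cast hmn
    refine ⟨z, h1, h2.trans hmn', fun i => lt_of_le_of_lt ?_ (h3 i)⟩
    apply one_div_le_one_div_of_le
    · positivity
    · linarith
  have hUc : (Set.univ : Set (Fin (d + 2) → A ⊕ B)) ⊆ ⋃ n, U n := by
    intro t _
    let v : A ⊕ B → EuclideanSpace ℝ (Fin d) := Sum.elim Subtype.val Subtype.val
    let T : Finset (EuclideanSpace ℝ (Fin d)) := Finset.univ.image fun i => v (t i)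
    have hT : (T : Set (EuclideanSpace ℝ (Fin d))) ⊆ A ∪ B := by
      intro x hx
      simp only [T, Finset.coe_image, Finset.coe_univ, Set.image_univ, Set.mem_range] at hx
      obtain ⟨i, rfl⟩ := hx
      rcases t i with a | b
      · exact Or.inl a.2
      · exact Or.inr b.2
    have hTc : T.card ≤ d + 2 := Finset.card_image_le.trans (by simp)
    obtain ⟨c, r, h0, h1, hX, hY⟩ := simple hd
      (hB.isBounded.subset Set.inter_subset_right) (h T hT hTc)
    let z : EuclideanSpace ℝ (Fin d) × ℝ := (c, ‖c‖ ^ 2 - r ^ 2)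
    have hpos : ∀ i, 0 < sg A B (t i) z := by
      intro i
      have hi : v (t i) ∈ (T : Set (EuclideanSpace ℝ (Fin d))) := by
        simp only [T, Finset.coe_image, Finset.coe_univ, Set.image_univ, Set.mem_range]
        exact ⟨i, rfl⟩
      rcases hti : t i with a | b
      · rw [hti] at hi
        have := hX ⟨hi, a.2⟩
        rw [mem_ball] at this
        simp only [v, Sum.elim_inl] at this
        simp only [sg, Sum.elim_inl, lift_eq, z]
        nlinarith [dist_nonneg (x := a.1) (y := c)]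
      · rw [hti] at hi
        have := hY ⟨hi, b.2⟩
        rw [Set.mem_compl_iff, mem_closedBall, not_le] at this
        simp only [v, Sum.elim_inr] at this
        simp only [sg, Sum.elim_inr, lift_eq, z]
        nlinarith
    have e1 : ∀ᶠ n : ℕ in Filter.atTop, ∀ i, 1 / ((n : ℝ) + 1) < sg A B (t i) z := by
      rw [Filter.eventually_all]
      intro i
      exact tendsto_one_div_add_atTop_nhds_zero_nat.eventually (gt_mem_nhds (hpos i))
    have e2 : ∀ᶠ n : ℕ in Filter.atTop, ‖z‖ ≤ n :=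
      tendsto_natCast_atTop_atTop.eventually_ge_atTop _
    obtain ⟨n, hn1, hn2⟩ := (e1.and e2).exists
    refine Set.mem_iUnion.mpr ⟨n, z, ?_, hn2, hn1⟩
    simp only [z]
    nlinarith
  obtain ⟨n, hn⟩ := isCompact_univ.elim_directed_cover U hUo hUc hUm.directed_le
  let F : A ⊕ B → Set (EuclideanSpace ℝ (Fin d) × ℝ) := fun x =>
    closedBall 0 n ∩ ({z | ‖z.1‖ ^ 2 - z.2 ≤ 1} ∩ {z | 1 / ((n : ℝ) + 1) ≤ sg A B x z})
  have hFc : ∀ x, Convex ℝ (F x) := by
    intro x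
    refine (convex_closedBall _ _).inter (para_convex.inter ?_)
    intro z hz w hw s t hs ht hst
    simp only [Set.mem_ofPred_eq] at hz hw ⊢
    rw [sg_comb _ _ _ _ _ _ _ hst]
    have h4 := mul_le_mul_of_nonneg_left hz hs
    have h5 := mul_le_mul_of_nonneg_left hw ht
    have : s * (1 / ((n : ℝ) + 1)) + t * (1 / ((n : ℝ) + 1)) = 1 / ((n : ℝ) + 1) := by
      rw [← add_mul, hst, one_mul]
    linarith
  have hFk : ∀ x, IsCompact (F x) := by
    intro x
    refine (isCompact_closedBall _ _).inter_right (IsClosed.inter ?_ ?_)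
    · exact isClosed_le (by fun_prop) continuous_const
    · exact isClosed_le continuous_const (sg_cont2 A B x)
  have hrk : Module.finrank ℝ (EuclideanSpace ℝ (Fin d) × ℝ) + 1 = d + 2 := by
    simp [Module.finrank_prod]
  obtain ⟨z, hz⟩ := Convex.helly_theorem_compact' hFc hFk (by
    intro I hI
    rw [hrk] at hI
    let t : Fin (d + 2) → A ⊕ B := fun j =>
      if hj : j.1 < I.card then (I.equivFin.symm ⟨j.1, hj⟩ : A ⊕ B) else Sum.inl ⟨a0, ha0⟩
    obtain ⟨z, h1, h2, h3⟩ := hn (Set.mem_univ t)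
    refine ⟨z, Set.mem_biInter fun x hx => ⟨?_, h1, ?_⟩⟩
    · rwa [mem_closedBall, dist_zero_right]
    · have hx' : x ∈ I := hx
      have hlt := (I.equivFin ⟨x, hx'⟩).2
      have := h3 ⟨(I.equivFin ⟨x, hx'⟩).1, lt_of_lt_of_le hlt hI⟩
      simp only [t, dif_pos hlt, Fin.eta, Equiv.symm_apply_apply] at this
      exact this.le)
  rw [Set.mem_iInter] at hz
  have hδ : (0 : ℝ) < 1 / ((n : ℝ) + 1) := by positivity
  have hA' : ∀ a ∈ A, dist a z.1 ^ 2 < ‖z.1‖ ^ 2 - z.2 := by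
    intro a ha
    have := (hz (Sum.inl ⟨a, ha⟩)).2.2
    simp only [Set.mem_ofPred_eq, sg, Sum.elim_inl, lift_eq] at this
    linarith
  have hB' : ∀ b ∈ B, ‖z.1‖ ^ 2 - z.2 < dist b z.1 ^ 2 := by
    intro b hb
    have := (hz (Sum.inr ⟨b, hb⟩)).2.2
    simp only [Set.mem_ofPred_eq, sg, Sum.elim_inr, lift_eq] at this
    linarith
  have hρ : 0 < ‖z.1‖ ^ 2 - z.2 := lt_of_le_of_lt (sq_nonneg _) (hA' a0 ha0)
  have hρ1 : ‖z.1‖ ^ 2 - z.2 ≤ 1 := (hz (Sum.inl ⟨a0, ha0⟩)).2.1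
  refine smallSep_of z.1 (Real.sqrt (‖z.1‖ ^ 2 - z.2)) (Real.sqrt_pos.mpr hρ)
    (Real.sqrt_le_one.mpr hρ1) ?_ ?_
  · intro a ha
    rw [mem_ball]
    exact Real.lt_sqrt_of_sq_lt (hA' a ha)
  · intro b hb
    rw [Set.mem_compl_iff, mem_closedBall, not_le]
    exact (Real.sqrt_lt' (by
      by_contra hc
      have h0 : dist b z.1 = 0 := le_antisymm (not_lt.mp hc) dist_nonneg
      have := hB' b hb
      rw [h0] at this
      nlinarith)).mpr (hB' b hb)

end Pool.Agent.Results.MP_f10258_co.Compact
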